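import Mathlib

set_option autoImplicit false

namespace Pool.Agent.MP_919c6d_an

open MeasureTheory

/-- The product of the normalised Haar measures on `T^∞`; the point `θ` stands for
`(e^{2πiθ_0}, e^{2πiθ_1}, ...)`, and `e^{2πit} = fourier 1 t`. -/
noncomputable def torusHaar : Measure (ℕ → UnitAddCircle) :=
  Measure.infinitePi (fun _ => AddCircle.haarAddCircle)

/-- The Fourier coefficient of `f` at the finitely supported multi-index `ν`. -/
noncomputable def torusFourierCoeff (f : (ℕ → UnitAddCircle) → ℂ) (ν : ℕ →₀ ℤ) : ℂ :=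
  ∫ θ, f θ * ∏ n ∈ ν.support, fourier (-ν n) (θ n) ∂torusHaar

/-- The Poisson integral of `f` at the point `(z_0, ..., z_{N-1}, 0, 0, ...)`. -/
noncomputable def poissonIntegral (f : (ℕ → UnitAddCircle) → ℂ) (N : ℕ) (z : ℕ → ℂ) : ℂ :=
  ∫ θ, f θ * ∏ n ∈ Finset.range N,
    (((1 - ‖z n‖ ^ 2) / ‖fourier 1 (θ n) - z n‖ ^ 2 : ℝ) : ℂ) ∂torusHaar

end Pool.Agent.MP_919c6d_an
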