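import Pool.Agent.MP_919c6d_an.OneVar

set_option autoImplicit false

namespace Pool.Agent.MP_919c6d_an

open MeasureTheory Metric Real Filter Topology

theorem integrable_torus {E : Type} [NormedAddCommGroup E] {W : (ℕ → UnitAddCircle) → E}
    (hW : Continuous W) : Integrable W torusHaar :=
  hW.integrable_of_hasCompactSupport (HasCompactSupport.of_compactSpace W)

theorem ae_summable {Y : ℕ → (ℕ → UnitAddCircle) → ℝ} (hY : ∀ k, Continuous (Y k))
    (h0 : ∀ k θ, 0 ≤ Y k θ) {u : ℕ → ℝ} (hu : Summable u)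
    (hle : ∀ k, ∫ θ, Y k θ ∂torusHaar ≤ u k) : ∀ᵐ θ ∂torusHaar, Summable (fun k => Y k θ) := by
  have hu0 : ∀ k, 0 ≤ u k := fun k => (integral_nonneg (h0 k)).trans (hle k)
  have hmeas : ∀ k, AEMeasurable (fun θ => ENNReal.ofReal (Y k θ)) torusHaar := fun k =>
    (hY k).measurable.ennreal_ofReal.aemeasurable
  have h1 : ∫⁻ θ, ∑' k, ENNReal.ofReal (Y k θ) ∂torusHaar ≠ ⊤ := by
    rw [lintegral_tsum hmeas]
    refine ne_top_of_le_ne_top (b := ∑' k, ENNReal.ofReal (u k)) ?_
      (ENNReal.tsum_le_tsum (fun k => ?_))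
    · rw [← ENNReal.ofReal_tsum_of_nonneg hu0 hu]
      exact ENNReal.ofReal_ne_top
    · rw [← ofReal_integral_eq_lintegral_ofReal (integrable_torus (hY k))
        (Eventually.of_forall (h0 k))]
      exact ENNReal.ofReal_le_ofReal (hle k)
  filter_upwards [ae_lt_top' (AEMeasurable.tsum hmeas) h1] with θ hθ
  have := ENNReal.summable_toReal hθ.ne
  simpa [ENNReal.toReal_ofReal (h0 _ θ)] using this

/-- Length of the `k`-th block. -/
def MM (k : ℕ) : ℕ := 2 * 3 ^ (81 * k * 4 ^ k)

theorem two_le_MM (k : ℕ) : 2 ≤ MM k := by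
  have : 1 ≤ 3 ^ (81 * k * 4 ^ k) := Nat.one_le_pow _ _ (by norm_num)
  unfold MM
  omega

theorem MM_mono : Monotone MM := by
  intro i k h
  unfold MM
  gcongr <;> norm_num

theorem le_MM (k : ℕ) : k ≤ MM k := by
  have h1 : 81 * k * 4 ^ k < 3 ^ (81 * k * 4 ^ k) := Nat.lt_pow_self (by norm_num)
  have h2 : 1 ≤ 4 ^ k := Nat.one_le_pow _ _ (by norm_num)
  have h3 : k ≤ 81 * k * 4 ^ k := by nlinarith
  unfold MM
  omega

/-- Start of the `k`-th block. -/
def nn (k : ℕ) : ℕ := ∑ i ∈ Finset.range k, MM i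

theorem nn_succ (k : ℕ) : nn (k + 1) = nn k + MM k := Finset.sum_range_succ _ _

theorem nn_strictMono : StrictMono nn :=
  strictMono_nat_of_lt_succ (fun k => by rw [nn_succ]; have := two_le_MM k; omega)

theorem exists_lt_nn (j : ℕ) : ∃ k, j < nn (k + 1) :=
  ⟨j, lt_of_lt_of_le (Nat.lt_succ_self j) (nn_strictMono.id_le (j + 1))⟩

/-- The block of the index `j`. -/
noncomputable def blk (j : ℕ) : ℕ := Nat.find (exists_lt_nn j)

theorem blk_le_iff {j k : ℕ} : blk j ≤ k ↔ j < nn (k + 1) := by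
  rw [blk, Nat.find_le_iff]
  constructor
  · rintro ⟨m, hm, h⟩
    exact h.trans_le (nn_strictMono.monotone (by omega))
  · exact fun h => ⟨k, le_rfl, h⟩

theorem blk_lt_iff {j k : ℕ} : blk j < k ↔ j < nn k := by
  cases k with
  | zero => simp [nn]
  | succ k => rw [Nat.lt_succ_iff, blk_le_iff]

theorem blk_eq_iff {j k : ℕ} : blk j = k ↔ nn k ≤ j ∧ j < nn (k + 1) := by
  rw [← blk_le_iff, ← not_lt, ← blk_lt_iff]
  omega

theorem blk_mono : Monotone blk := fun i j h =>
  blk_le_iff.2 (h.trans_lt (blk_le_iff.1 le_rfl))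

/-- The parameter of the Blaschke factors in block `k`. -/
noncomputable def cc (k : ℕ) : ℝ := (1 / 4) ^ k / MM k

theorem cc_pos (k : ℕ) : 0 < cc k := by
  have : (0 : ℝ) < MM k := by have := two_le_MM k; positivity
  unfold cc
  positivity

theorem cc_le (k : ℕ) : cc k ≤ 1 / MM k := by
  unfold cc
  gcongr
  exact pow_le_one₀ (by norm_num) (by norm_num)

theorem cc_le_one (k : ℕ) : cc k ≤ 1 := by
  refine (cc_le k).trans ?_
  have : (2 : ℝ) ≤ MM k := by exact_mod_cast two_le_MM k
  rw [div_le_one (by linarith)]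
  linarith

/-- The exponent at index `j`. -/
noncomputable def KK (j : ℕ) : ℕ := MM (blk j) ^ (nn (blk j + 1) - 1 - j)

theorem KK_pos (j : ℕ) : 0 < KK j := by
  have := two_le_MM (blk j)
  unfold KK
  positivity

theorem KK_le (j : ℕ) : KK j ≤ MM (blk j) ^ MM (blk j) := by
  have h := (blk_eq_iff (j := j)).1 rfl
  have := nn_succ (blk j)
  have := two_le_MM (blk j)
  exact Nat.pow_le_pow_right (by omega) (by omega)

theorem KK_succ {j : ℕ} (h : blk (j + 1) = blk j) : KK j = MM (blk j) * KK (j + 1) := by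
  have h1 := (blk_eq_iff.1 h).2
  unfold KK
  rw [h, ← pow_succ']
  congr 1
  omega

/-- The analytic factor at index `j`. -/
noncomputable def gg (j : ℕ) (z : ℂ) : ℂ := bl (1 - cc (blk j)) (z ^ KK j)

theorem diffContOnCl_gg (j : ℕ) : DiffContOnCl ℂ (gg j) (ball 0 1) :=
  diffContOnCl_bl (by linarith [cc_le_one (blk j)]) (by linarith [cc_pos (blk j)]) _

theorem norm_gg_le (j : ℕ) {z : ℂ} (hz : ‖z‖ ≤ 1) : ‖gg j z‖ ≤ 1 :=
  norm_bl_le (by linarith [cc_le_one (blk j)]) (by linarith [cc_pos (blk j)])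
    (by rw [norm_pow]; exact pow_le_one₀ (norm_nonneg _) hz)

theorem norm_gg_ec (j : ℕ) (t : UnitAddCircle) : ‖gg j (ec t)‖ = 1 :=
  norm_bl_eq (by linarith [cc_le_one (blk j)]) (by linarith [cc_pos (blk j)])
    (by rw [norm_pow, norm_ec, one_pow])

theorem continuous_gg_ec (j : ℕ) : Continuous (fun t => gg j (ec t)) :=
  continuous_bl_comp (by linarith [cc_le_one (blk j)]) (by linarith [cc_pos (blk j)])
    (by fun_prop) (fun t => by rw [norm_pow, norm_ec, one_pow])

theorem gg_zero (j : ℕ) : gg j 0 = ((1 - cc (blk j) : ℝ) : ℂ) := by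
  simp [gg, bl, (KK_pos j).ne']

/-- Finite products of the boundary functions. -/
noncomputable def FF (s : Finset ℕ) (θ : ℕ → UnitAddCircle) : ℂ := ∏ j ∈ s, gg j (ec (θ j))

theorem continuous_FF (s : Finset ℕ) : Continuous (FF s) :=
  continuous_finsetProd _ (fun j _ => (continuous_gg_ec j).comp (continuous_apply j))

theorem norm_FF (s : Finset ℕ) (θ : ℕ → UnitAddCircle) : ‖FF s θ‖ = 1 := by
  simp only [FF, norm_prod, norm_gg_ec, Finset.prod_const_one]

/-- The `k`-th block. -/
def BB (k : ℕ) : Finset ℕ := Finset.Ico (nn k) (nn (k + 1))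

theorem blk_of_mem {k j : ℕ} (h : j ∈ BB k) : blk j = k := blk_eq_iff.2 (Finset.mem_Ico.1 h)

theorem card_BB (k : ℕ) : (BB k).card = MM k := by
  rw [BB, Nat.card_Ico, nn_succ]; omega

theorem integral_block_sub_one (k : ℕ) :
    ∫ θ, 2 ^ k * ‖FF (BB k) θ - 1‖ ^ 2 ∂torusHaar ≤ 2 * (1 / 2) ^ k := by
  have h1 : ∫ θ, FF (BB k) θ ∂torusHaar = (((1 - cc k) ^ MM k : ℝ) : ℂ) := by
    unfold FF
    rw [integral_prod_torus (h := fun j t => gg j (ec t)) _ (fun j _ => continuous_gg_ec j),
      Finset.prod_congr rfl (g := fun _ => ((1 - cc k : ℝ) : ℂ)) (fun j hj => by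
        rw [integral_mean (diffContOnCl_gg j), gg_zero, blk_of_mem hj]),
      Finset.prod_const, card_BB]
    push_cast
    rfl
  have h2 : ∀ θ, ‖FF (BB k) θ - 1‖ ^ 2 = 2 - 2 * (FF (BB k) θ).re := by
    intro θ
    have := norm_FF (BB k) θ
    rw [← Complex.normSq_eq_norm_sq, Complex.normSq_sub, Complex.normSq_eq_norm_sq, this]
    simp
    ring
  have hint := integrable_torus (continuous_FF (BB k))
  have h3 : ∫ θ, (FF (BB k) θ).re ∂torusHaar = (1 - cc k) ^ MM k := by
    have := integral_re hint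
    simp only [RCLike.re_to_complex] at this
    rw [this, h1, Complex.ofReal_re]
  have h4 : 1 - (1 / 4 : ℝ) ^ k ≤ (1 - cc k) ^ MM k := by
    have h5 := one_add_mul_le_pow (a := -cc k) (by linarith [cc_le_one k]) (MM k)
    have hM : (MM k : ℝ) ≠ 0 := by have := two_le_MM k; positivity
    have h6 : (MM k : ℝ) * cc k = (1 / 4) ^ k := by unfold cc; field_simp
    rw [← sub_eq_add_neg] at h5
    linarith
  simp_rw [h2]
  have hre : Integrable (fun θ => 2 * (FF (BB k) θ).re) torusHaar := hint.re.const_mul 2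
  rw [integral_const_mul, integral_sub (integrable_const _) hre, integral_const_mul, h3]
  have h7 : (2 : ℝ) ^ k * (1 / 4) ^ k = (1 / 2) ^ k := by rw [← mul_pow]; norm_num
  have h8 : (0 : ℝ) < 2 ^ k := by positivity
  simp only [integral_const, probReal_univ, smul_eq_mul, one_mul]
  nlinarith

theorem ae_cauchy : ∀ᵐ θ ∂torusHaar, CauchySeq (fun k => FF (Finset.range (nn k)) θ) := by
  have hg : Summable (fun k : ℕ => (1 / 2 : ℝ) ^ k) := summable_geometric_two
  have h := ae_summable (Y := fun k θ => 2 ^ k * ‖FF (BB k) θ - 1‖ ^ 2)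
    (fun k => by have := continuous_FF (BB k); fun_prop) (fun k θ => by positivity)
    (hg.mul_left 2) integral_block_sub_one
  filter_upwards [h] with θ hθ
  refine cauchySeq_of_dist_le_of_summable _ (fun k => ?_) (hθ.add hg)
  have h1 : FF (Finset.range (nn (k + 1))) θ = FF (Finset.range (nn k)) θ * FF (BB k) θ :=
    (Finset.prod_range_mul_prod_Ico _ (nn_strictMono.monotone (Nat.le_succ k))).symm
  rw [Nat.succ_eq_add_one, h1, dist_comm, dist_eq_norm, ← mul_sub_one, norm_mul, norm_FF, one_mul]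
  have h2 : (2 : ℝ) ^ k * (1 / 2) ^ k = 1 := by rw [← mul_pow]; norm_num
  have h3 : (0 : ℝ) < 2 ^ k := by positivity
  have h4 : (0 : ℝ) < (1 / 2) ^ k := by positivity
  generalize ‖FF (BB k) θ - 1‖ = x
  generalize (2 : ℝ) ^ k = p at h2 h3
  generalize (1 / 2 : ℝ) ^ k = q at h2 h4
  have h5 : 0 ≤ p * (x - q) ^ 2 := by positivity
  have h6 : p * (x - q) ^ 2 = p * x ^ 2 - 2 * x * (p * q) + (p * q) * q := by ring
  rw [h6, h2] at h5
  by_cases hx : 0 ≤ x
  · linarith
  · have : 0 ≤ p * x ^ 2 := by positivity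
    linarith

/-- The function. -/
noncomputable def ff (θ : ℕ → UnitAddCircle) : ℂ :=
  limUnder atTop (fun k => FF (Finset.range (nn k)) θ)

theorem ae_tendsto :
    ∀ᵐ θ ∂torusHaar, Tendsto (fun k => FF (Finset.range (nn k)) θ) atTop (𝓝 (ff θ)) := by
  filter_upwards [ae_cauchy] with θ hθ using hθ.tendsto_limUnder

theorem ae_norm_ff : ∀ᵐ θ ∂torusHaar, ‖ff θ‖ = 1 := by
  filter_upwards [ae_tendsto] with θ hθ
  have := hθ.norm
  simp only [norm_FF] at this
  exact tendsto_nhds_unique this tendsto_const_nhds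

theorem memLp_ff : MemLp ff ⊤ torusHaar :=
  memLp_top_of_bound
    (aestronglyMeasurable_of_tendsto_ae atTop
      (fun _ => (continuous_FF _).aestronglyMeasurable) ae_tendsto) 1
    (by filter_upwards [ae_norm_ff] with θ h using h.le)

theorem tendsto_weighted (s : Finset ℕ) {w : ℕ → UnitAddCircle → ℂ}
    (hw : ∀ j, Continuous (w j)) :
    Tendsto (fun k => ∏ j ∈ Finset.range (nn k),
        ∫ t, gg j (ec t) * (if j ∈ s then w j t else 1) ∂cH) atTop
      (𝓝 (∫ θ, ff θ * ∏ j ∈ s, w j (θ j) ∂torusHaar)) := by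
  have hW : Continuous (fun θ : ℕ → UnitAddCircle => ∏ j ∈ s, w j (θ j)) :=
    continuous_finsetProd _ (fun j _ => (hw j).comp (continuous_apply j))
  have h1 := tendsto_integral_of_dominated_convergence (μ := torusHaar)
    (F := fun k θ => FF (Finset.range (nn k)) θ * ∏ j ∈ s, w j (θ j))
    (f := fun θ => ff θ * ∏ j ∈ s, w j (θ j)) (fun θ => ‖∏ j ∈ s, w j (θ j)‖)
    (fun k => ((continuous_FF _).mul hW).aestronglyMeasurable) (integrable_torus hW.norm)
    (fun k => Eventually.of_forall (fun θ => by rw [norm_mul, norm_FF, one_mul]))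
    (by filter_upwards [ae_tendsto] with θ hθ using hθ.mul_const _)
  refine h1.congr' ?_
  filter_upwards [eventually_ge_atTop (s.sup id + 1)] with k hk
  have hsub : s ⊆ Finset.range (nn k) := by
    intro j hj
    have h2 : j ≤ s.sup id := Finset.le_sup (f := id) hj
    have h3 : k ≤ nn k := nn_strictMono.id_le k
    rw [Finset.mem_range]
    omega
  rw [← integral_prod_torus (h := fun j t => gg j (ec t) * (if j ∈ s then w j t else 1))]
  · congr 1
    ext θ
    rw [Finset.prod_mul_distrib, Finset.prod_ite_mem, Finset.inter_eq_right.2 hsub]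
    rfl
  · intro j _
    refine (continuous_gg_ec j).mul ?_
    split_ifs
    · exact hw j
    · exact continuous_const

theorem fourierCoeff_ff (ν : ℕ →₀ ℤ) (hν : ∃ n, ν n < 0) : torusFourierCoeff ff ν = 0 := by
  obtain ⟨j, hj⟩ := hν
  have h := tendsto_weighted ν.support (w := fun n t => fourier (-ν n) t) (fun n => by fun_prop)
  refine tendsto_nhds_unique h (tendsto_const_nhds.congr' ?_)
  filter_upwards [eventually_ge_atTop (j + 1)] with k hk
  have h3 : k ≤ nn k := nn_strictMono.id_le k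
  symm
  refine Finset.prod_eq_zero (i := j) (Finset.mem_range.2 (by omega)) ?_
  have hmem : j ∈ ν.support := Finsupp.mem_support_iff.2 hj.ne
  obtain ⟨m, hm⟩ : ∃ m : ℕ, -ν j = (m : ℤ) := ⟨(-ν j).toNat, by omega⟩
  have hm0 : m ≠ 0 := by omega
  have hf : ∀ t : UnitAddCircle, fourier (m : ℤ) t = ec t ^ m := by
    intro t
    rw [← ec_zsmul]
    simp [ec, fourier_apply]
  simp only [hmem, if_true, hm, hf]
  have hd : DiffContOnCl ℂ (fun z => gg j z * z ^ m) (ball 0 1) :=
    ((diffContOnCl_gg j).smul (differentiable_pow m).diffContOnCl :)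
  rw [integral_mean hd]
  simp [hm0]

theorem norm_poisson_le (k : ℕ) {z : ℕ → ℂ} (hz : ∀ j, ‖z j‖ < 1) :
    ‖poissonIntegral ff (nn (k + 1)) z‖ ≤ ∏ j ∈ BB k, ‖gg j (z j)‖ := by
  have h := tendsto_weighted (Finset.range (nn (k + 1)))
    (w := fun n t => (((1 - ‖z n‖ ^ 2) / ‖ec t - z n‖ ^ 2 : ℝ) : ℂ)) (fun n => by
      refine Complex.continuous_ofReal.comp (Continuous.div continuous_const (by fun_prop) ?_)
      intro t
      have : ec t - z n ≠ 0 := by
        intro h
        have h1 := hz n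
        rw [← sub_eq_zero.1 h, norm_ec] at h1
        exact lt_irrefl _ h1
      positivity)
  refine le_of_tendsto h.norm ?_
  filter_upwards [eventually_ge_atTop (k + 1)] with i hi
  have hval : ∀ j, ∫ t, gg j (ec t) * (if j ∈ Finset.range (nn (k + 1)) then
      (((1 - ‖z j‖ ^ 2) / ‖ec t - z j‖ ^ 2 : ℝ) : ℂ) else 1) ∂cH =
      gg j (if j ∈ Finset.range (nn (k + 1)) then z j else 0) := by
    intro j
    split_ifs
    · exact integral_poisson (diffContOnCl_gg j) (hz j)
    · simpa using integral_mean (diffContOnCl_gg j)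
  simp only [hval, norm_prod]
  have hsub : BB k ⊆ Finset.range (nn i) := by
    intro j hj
    exact Finset.mem_range.2 ((Finset.mem_Ico.1 hj).2.trans_le (nn_strictMono.monotone hi))
  refine (Finset.prod_le_prod_of_subset_of_le_one hsub (fun j _ => norm_nonneg _)
    (fun j _ _ => norm_gg_le j ?_)).trans (le_of_eq (Finset.prod_congr rfl (fun j hj => ?_)))
  · split_ifs
    · exact (hz j).le
    · simp
  · rw [if_pos (Finset.mem_range.2 (Finset.mem_Ico.1 hj).2)]

theorem integral_block_psi (k : ℕ) :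
    ∫ θ, ∏ j ∈ BB k, psi (MM k) (cc k) ((KK j : ℤ) • θ j) ∂torusHaar ≤ (1 / 2) ^ k := by
  have hc := continuous_psi (MM k) (cc_pos k) (cc_le_one k)
  rw [integral_prod_torus (h := fun j t => psi (MM k) (cc k) ((KK j : ℤ) • t)) _
      (fun j _ => by fun_prop),
    Finset.prod_congr rfl (g := fun _ => ∫ t, psi (MM k) (cc k) t ∂cH)
      (fun j _ => integral_comp_nsmul (KK_pos j).ne' hc), Finset.prod_const, card_BB]
  have h1 := integral_psi_le (two_le_MM k) (cc_pos k) (cc_le k)
  have h0 : 0 ≤ ∫ t, psi (MM k) (cc k) t ∂cH := integral_nonneg (fun t => by unfold psi; positivity)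
  have h2 := Real.add_one_le_exp (-(cc k / 81 * Real.log (MM k / 2)))
  have hM : (MM k : ℝ) ≠ 0 := by have := two_le_MM k; positivity
  have h3 : (k : ℝ) ≤ MM k * (cc k / 81 * Real.log (MM k / 2)) := by
    have h4 : (MM k : ℝ) / 2 = 3 ^ (81 * k * 4 ^ k) := by
      unfold MM; push_cast; ring
    have h5 : (1 : ℝ) ≤ Real.log 3 := by
      rw [Real.le_log_iff_exp_le (by norm_num)]
      linarith [Real.exp_one_lt_d9]
    have h6 : (MM k : ℝ) * (cc k / 81 * Real.log (MM k / 2)) = k * Real.log 3 := by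
      rw [h4, Real.log_pow]
      unfold cc
      push_cast
      field_simp
      rw [mul_right_comm, ← mul_pow]
      simp
    rw [h6]
    nlinarith [Nat.cast_nonneg (α := ℝ) k]
  calc _ ≤ Real.exp (-(cc k / 81 * Real.log (MM k / 2))) ^ MM k :=
        pow_le_pow_left₀ h0 (by linarith) _
    _ = Real.exp (-(MM k * (cc k / 81 * Real.log (MM k / 2)))) := by
        rw [← Real.exp_nat_mul]; congr 1; ring
    _ ≤ Real.exp (k * (-1)) := Real.exp_le_exp.2 (by linarith)
    _ = Real.exp (-1) ^ k := Real.exp_nat_mul _ _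
    _ ≤ (1 / 2) ^ k := by
        refine pow_le_pow_left₀ (Real.exp_pos _).le ?_ _
        rw [Real.exp_neg, one_div]
        exact inv_anti₀ (by norm_num) (by linarith [Real.add_one_le_exp 1])

theorem ae_block_tendsto : ∀ᵐ θ ∂torusHaar,
    Tendsto (fun k => ∏ j ∈ BB k, psi (MM k) (cc k) ((KK j : ℤ) • θ j)) atTop (𝓝 0) := by
  have h := ae_summable (Y := fun k θ => ∏ j ∈ BB k, psi (MM k) (cc k) ((KK j : ℤ) • θ j))
    (fun k => continuous_finsetProd _ (fun j _ => by
      have := continuous_psi (MM k) (cc_pos k) (cc_le_one k); fun_prop))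
    (fun k θ => Finset.prod_nonneg (fun j _ => by unfold psi; positivity))
    summable_geometric_two integral_block_psi
  filter_upwards [h] with θ hθ using hθ.tendsto_atTop_zero

/-- Depth for the earlier blocks. -/
noncomputable def tau (k : ℕ) : ℝ := 1 / ((MM k ^ (MM k + 1) : ℕ) : ℝ)

theorem tau_pos (k : ℕ) : 0 < tau k := by
  have := two_le_MM k
  unfold tau
  positivity

theorem tau_anti : Antitone tau := by
  intro i k h
  have h1 := two_le_MM i
  have h2 := MM_mono h
  refine one_div_le_one_div_of_le (by positivity) ?_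
  exact_mod_cast (Nat.pow_le_pow_left h2 _).trans (Nat.pow_le_pow_right (by omega) (by omega))

theorem tau_tendsto : Tendsto tau atTop (𝓝 0) := by
  refine squeeze_zero' (Eventually.of_forall (fun k => (tau_pos k).le)) ?_
    tendsto_one_div_atTop_nhds_zero_nat
  filter_upwards [eventually_ge_atTop 1] with k hk
  refine one_div_le_one_div_of_le (by positivity) ?_
  exact_mod_cast (le_MM k).trans (Nat.le_self_pow (by omega) _)

/-- Depth at index `j` in its own block. -/
noncomputable def own (θ : ℕ → UnitAddCircle) (j : ℕ) : ℝ :=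
  dep (MM (blk j)) ((KK j : ℤ) • θ j) / KK j

theorem tau_le_own (θ : ℕ → UnitAddCircle) (j : ℕ) : tau (blk j) ≤ own θ j := by
  have h1 := two_le_MM (blk j)
  have hK : (0 : ℝ) < KK j := by exact_mod_cast KK_pos j
  have hM : (0 : ℝ) < MM (blk j) := by positivity
  have h2 : (KK j : ℝ) ≤ (MM (blk j) : ℝ) ^ MM (blk j) := by exact_mod_cast KK_le j
  calc tau (blk j) = 1 / MM (blk j) / (MM (blk j) : ℝ) ^ MM (blk j) := by
        unfold tau; push_cast; field_simp; ring
    _ ≤ _ := by
        unfold own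
        gcongr
        · exact dep_nonneg _ _
        · exact le_dep _ _

theorem own_le_succ (θ : ℕ → UnitAddCircle) {j : ℕ} (h : blk (j + 1) = blk j) :
    own θ j ≤ own θ (j + 1) := by
  have h1 := two_le_MM (blk j)
  have hK : (0 : ℝ) < KK (j + 1) := by exact_mod_cast KK_pos (j + 1)
  have hM : (0 : ℝ) < MM (blk j) := by positivity
  calc own θ j ≤ 1 / KK j := by
        unfold own
        gcongr
        exact dep_le (by omega) _
    _ = 1 / MM (blk j) / KK (j + 1) := by
        rw [KK_succ h]; push_cast; field_simp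
    _ ≤ own θ (j + 1) := by
        unfold own
        rw [h]
        gcongr
        exact le_dep _ _

/-- The radii. -/
noncomputable def rad (θ : ℕ → UnitAddCircle) (k j : ℕ) : ℝ :=
  if blk j < k then Real.exp (-tau k) else if blk j = k then Real.exp (-own θ j) else 0

theorem rad_nonneg (θ : ℕ → UnitAddCircle) (k j : ℕ) : 0 ≤ rad θ k j := by
  unfold rad
  split_ifs <;> positivity

theorem rad_le (θ : ℕ → UnitAddCircle) (k j : ℕ) : rad θ k j ≤ Real.exp (-tau k) := by
  unfold rad
  split_ifs with h1 h2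
  · exact le_rfl
  · rw [← h2]
    exact Real.exp_le_exp.2 (neg_le_neg (tau_le_own θ j))
  · positivity

theorem rad_lt_one (θ : ℕ → UnitAddCircle) (k j : ℕ) : rad θ k j < 1 :=
  (rad_le θ k j).trans_lt (by rw [Real.exp_lt_one_iff]; linarith [tau_pos k])

theorem rad_eq_zero (θ : ℕ → UnitAddCircle) {k j : ℕ} (h : nn (k + 1) ≤ j) : rad θ k j = 0 := by
  have : ¬ blk j ≤ k := by rw [blk_le_iff]; omega
  unfold rad
  rw [if_neg (by omega), if_neg (by omega)]

theorem rad_mono (θ : ℕ → UnitAddCircle) (j : ℕ) : Monotone (fun k => rad θ k j) := by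
  refine monotone_nat_of_le_succ (fun k => ?_)
  by_cases h : blk j < k + 1
  · refine (rad_le θ k j).trans ?_
    unfold rad
    rw [if_pos h]
    exact Real.exp_le_exp.2 (neg_le_neg (tau_anti (Nat.le_succ k)))
  · refine le_trans (le_of_eq ?_) (rad_nonneg θ (k + 1) j)
    unfold rad
    rw [if_neg (by omega), if_neg (by omega)]

theorem rad_tendsto (θ : ℕ → UnitAddCircle) (j : ℕ) :
    Tendsto (fun k => rad θ k j) atTop (𝓝 1) := by
  have h : Tendsto (fun k => Real.exp (-tau k)) atTop (𝓝 1) := by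
    have := (Real.continuous_exp.tendsto (-0)).comp tau_tendsto.neg
    simpa [Function.comp_def] using this
  refine h.congr' ?_
  filter_upwards [eventually_gt_atTop (blk j)] with k hk
  unfold rad
  rw [if_pos hk]

theorem rad_succ_le (θ : ℕ → UnitAddCircle) (k j : ℕ) : rad θ k (j + 1) ≤ rad θ k j := by
  have hm : blk j ≤ blk (j + 1) := blk_mono (Nat.le_succ j)
  by_cases h1 : blk j < k
  · refine (rad_le θ k (j + 1)).trans (le_of_eq ?_)
    unfold rad
    rw [if_pos h1]
  · by_cases h2 : blk (j + 1) = k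
    · have h3 : blk j = k := by omega
      unfold rad
      rw [if_neg (by omega), if_pos h2, if_neg h1, if_pos h3]
      exact Real.exp_le_exp.2 (neg_le_neg (own_le_succ θ (by omega)))
    · refine le_trans (le_of_eq ?_) (rad_nonneg θ k j)
      unfold rad
      rw [if_neg (by omega), if_neg h2]

theorem gg_rad (θ : ℕ → UnitAddCircle) {k j : ℕ} (h : j ∈ BB k) :
    ‖gg j ((rad θ k j : ℝ) * ec (θ j))‖ ^ 2 = psi (MM k) (cc k) ((KK j : ℤ) • θ j) := by
  have hb := blk_of_mem h
  have hK : (KK j : ℝ) ≠ 0 := by exact_mod_cast (KK_pos j).ne'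
  unfold rad
  rw [if_neg (by omega), if_pos hb, gg, psi, mul_pow, ec_zsmul, ← Complex.ofReal_pow,
    ← Real.exp_nat_mul, own, hb]
  congr 6
  field_simp

theorem ae_poisson_tendsto : ∀ᵐ θ ∂torusHaar,
    Tendsto (fun k => poissonIntegral ff (nn (k + 1)) (fun j => (rad θ k j : ℝ) * ec (θ j)))
      atTop (𝓝 0) := by
  filter_upwards [ae_block_tendsto] with θ hθ
  rw [tendsto_zero_iff_norm_tendsto_zero]
  have h1 := (Real.continuous_sqrt.tendsto 0).comp hθ
  rw [Real.sqrt_zero] at h1
  refine squeeze_zero (fun k => norm_nonneg _) (fun k => ?_) h1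
  refine (norm_poisson_le k (fun j => ?_)).trans (Real.le_sqrt_of_sq_le (le_of_eq ?_))
  · rw [norm_mul, norm_ec, Complex.norm_real, Real.norm_eq_abs, abs_of_nonneg (rad_nonneg θ k j),
      mul_one]
    exact rad_lt_one θ k j
  · rw [← Finset.prod_pow]
    exact Finset.prod_congr rfl (fun j hj => gg_rad θ hj)

theorem main :
    ∃ f : (ℕ → UnitAddCircle) → ℂ,
      MemLp f ⊤ torusHaar ∧
      (∀ ν : ℕ →₀ ℤ, (∃ n, ν n < 0) → torusFourierCoeff f ν = 0) ∧
      ∀ᵐ θ ∂torusHaar, ∃ (r : ℕ → ℕ → ℝ) (N : ℕ → ℕ),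
        (∀ k n, 0 ≤ r k n ∧ r k n < 1) ∧
        (∀ k n, N k ≤ n → r k n = 0) ∧
        (∀ n, Monotone (fun k => r k n)) ∧
        (∀ n, Tendsto (fun k => r k n) atTop (𝓝 1)) ∧
        (∀ k n, r k (n + 1) ≤ r k n) ∧
        ‖f θ‖ = 1 ∧
        Tendsto (fun k => poissonIntegral f (N k) (fun n => (r k n : ℂ) * fourier 1 (θ n)))
          atTop (𝓝 0) ∧
        ¬ Tendsto (fun k => poissonIntegral f (N k) (fun n => (r k n : ℂ) * fourier 1 (θ n)))
          atTop (𝓝 (f θ)) := by
  refine ⟨ff, memLp_ff, fourierCoeff_ff, ?_⟩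
  filter_upwards [ae_norm_ff, ae_poisson_tendsto] with θ h1 h2
  refine ⟨rad θ, fun k => nn (k + 1), fun k n => ⟨rad_nonneg θ k n, rad_lt_one θ k n⟩,
    fun k n h => rad_eq_zero θ h, rad_mono θ, rad_tendsto θ, rad_succ_le θ, h1, h2, fun h => ?_⟩
  rw [tendsto_nhds_unique h h2] at h1
  simp at h1

end Pool.Agent.MP_919c6d_an
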