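import Pool.Agent.MP_919c6d_an.Defs

set_option autoImplicit false

namespace Pool.Agent.MP_919c6d_an

open MeasureTheory Metric Real

/-- Normalised Haar measure on the circle. -/
noncomputable abbrev cH : Measure UnitAddCircle := AddCircle.haarAddCircle

/-- The point of the unit circle. -/
noncomputable abbrev ec (t : UnitAddCircle) : ℂ := fourier 1 t

theorem norm_ec (t : UnitAddCircle) : ‖ec t‖ = 1 := by
  simp [ec, fourier_apply]

theorem ec_coe (x : ℝ) : ec (x : UnitAddCircle) = Complex.exp (Complex.I * (2 * π * x : ℝ)) := by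
  rw [ec, fourier_coe_apply]
  congr 1
  push_cast
  ring

theorem integral_cH_eq {E : Type} [NormedAddCommGroup E] [NormedSpace ℝ E]
    (h : UnitAddCircle → E) : ∫ t, h t ∂cH = ∫ x in (0 : ℝ)..1, h x := by
  rw [AddCircle.integral_haarAddCircle, ← UnitAddCircle.intervalIntegral_preimage 0]
  simp

theorem integral_ec (h : ℂ → ℂ) : ∫ t, h (ec t) ∂cH = circleAverage h 0 1 := by
  rw [integral_cH_eq, circleAverage_def]
  have hpi : (2 * π) ≠ 0 := by positivity
  have := intervalIntegral.integral_comp_mul_left (a := 0) (b := 1)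
    (fun θ : ℝ => h (circleMap 0 1 θ)) hpi
  simp only [mul_zero, mul_one] at this
  rw [← this]
  congr 1
  ext x
  rw [ec_coe, circleMap]
  simp [mul_comm]

theorem integral_mean {h : ℂ → ℂ} (hh : DiffContOnCl ℂ h (ball 0 1)) :
    ∫ t, h (ec t) ∂cH = h 0 := by
  rw [integral_ec]
  exact DiffContOnCl.circleAverage (R := 1) (by simpa using hh)

theorem integral_poisson {h : ℂ → ℂ} (hh : DiffContOnCl ℂ h (ball 0 1)) {z : ℂ} (hz : ‖z‖ < 1) :
    ∫ t, h (ec t) * (((1 - ‖z‖ ^ 2) / ‖ec t - z‖ ^ 2 : ℝ) : ℂ) ∂cH = h z := by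
  rw [← hh.circleAverage_poissonKernel_smul' (w := z) (by simpa using hz), ← integral_ec]
  congr 1
  ext t
  simp only [sub_zero, norm_ec, one_pow, Complex.real_smul, mul_comm]

/-- The Blaschke factor. -/
noncomputable def bl (a : ℝ) (z : ℂ) : ℂ := (a - z) / (1 - a * z)

theorem bl_den_ne {a : ℝ} (ha0 : 0 ≤ a) (ha1 : a < 1) {z : ℂ} (hz : ‖z‖ ≤ 1) :
    (1 : ℂ) - a * z ≠ 0 := by
  intro h
  have h1 : (a : ℂ) * z = 1 := by linear_combination -h
  have h2 : ‖(a : ℂ) * z‖ = 1 := by rw [h1]; simp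
  rw [norm_mul, Complex.norm_real, Real.norm_eq_abs, abs_of_nonneg ha0] at h2
  nlinarith [norm_nonneg z]

theorem bl_normSq {a : ℝ} (ha0 : 0 ≤ a) (ha1 : a < 1) {z : ℂ} (hz : ‖z‖ ≤ 1) :
    ‖bl a z‖ ^ 2 = 1 - (1 - a ^ 2) * (1 - ‖z‖ ^ 2) / ‖1 - a * z‖ ^ 2 := by
  have hne := bl_den_ne ha0 ha1 hz
  have hpos : 0 < ‖1 - (a : ℂ) * z‖ ^ 2 := by positivity
  rw [bl, norm_div, div_pow]
  field_simp
  simp only [← Complex.normSq_eq_norm_sq, Complex.normSq_apply, Complex.sub_re, Complex.sub_im,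
    Complex.mul_re, Complex.mul_im, Complex.ofReal_re, Complex.ofReal_im, Complex.one_re,
    Complex.one_im]
  ring

theorem norm_bl_le {a : ℝ} (ha0 : 0 ≤ a) (ha1 : a < 1) {z : ℂ} (hz : ‖z‖ ≤ 1) :
    ‖bl a z‖ ≤ 1 := by
  have h := bl_normSq ha0 ha1 hz
  have h1 : 0 ≤ (1 - a ^ 2) * (1 - ‖z‖ ^ 2) / ‖1 - a * z‖ ^ 2 := by
    have : 0 ≤ 1 - a ^ 2 := by nlinarith
    have : 0 ≤ 1 - ‖z‖ ^ 2 := by nlinarith [norm_nonneg z]
    positivity
  nlinarith [norm_nonneg (bl a z)]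

theorem norm_bl_eq {a : ℝ} (ha0 : 0 ≤ a) (ha1 : a < 1) {z : ℂ} (hz : ‖z‖ = 1) :
    ‖bl a z‖ = 1 := by
  have h := bl_normSq ha0 ha1 hz.le
  rw [hz] at h
  simp only [one_pow, sub_self, mul_zero, zero_div, sub_zero] at h
  nlinarith [norm_nonneg (bl a z)]

theorem diffContOnCl_bl {a : ℝ} (ha0 : 0 ≤ a) (ha1 : a < 1) (K : ℕ) :
    DiffContOnCl ℂ (fun z => bl a (z ^ K)) (ball 0 1) := by
  apply DifferentiableOn.diffContOnCl
  rw [closure_ball 0 one_ne_zero]
  intro z hz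
  have hz' : ‖z ^ K‖ ≤ 1 := by
    rw [norm_pow]
    exact pow_le_one₀ (norm_nonneg _) (by simpa using hz)
  apply DifferentiableAt.differentiableWithinAt
  unfold bl
  exact DifferentiableAt.div (by fun_prop) (by fun_prop) (bl_den_ne ha0 ha1 hz')

theorem continuous_bl_comp {X : Type} [TopologicalSpace X] {a : ℝ} (ha0 : 0 ≤ a) (ha1 : a < 1)
    {u : X → ℂ} (hu : Continuous u) (h1 : ∀ x, ‖u x‖ ≤ 1) : Continuous (fun x => bl a (u x)) := by
  unfold bl
  exact Continuous.div (by fun_prop) (by fun_prop) (fun x => bl_den_ne ha0 ha1 (h1 x))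

/-- The depth of the approach point. -/
noncomputable def dep (M : ℕ) (t : UnitAddCircle) : ℝ := max ‖t‖ (1 / M)

theorem continuous_dep (M : ℕ) : Continuous (dep M) := by
  unfold dep
  fun_prop

theorem dep_nonneg (M : ℕ) (t : UnitAddCircle) : 0 ≤ dep M t :=
  le_max_of_le_left (norm_nonneg _)

theorem le_dep (M : ℕ) (t : UnitAddCircle) : 1 / (M : ℝ) ≤ dep M t := le_max_right _ _

theorem dep_le {M : ℕ} (hM : 1 ≤ M) (t : UnitAddCircle) : dep M t ≤ 1 := by
  refine max_le ?_ ?_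
  · have := AddCircle.norm_le_half_period (1 : ℝ) (x := t) one_ne_zero
    simp at this
    linarith
  · have : (1 : ℝ) ≤ M := by exact_mod_cast hM
    rw [div_le_one (by linarith)]
    exact this

/-- The squared modulus of the Blaschke factor at the approach point. -/
noncomputable def psi (M : ℕ) (c : ℝ) (t : UnitAddCircle) : ℝ :=
  ‖bl (1 - c) ((Real.exp (-dep M t) : ℝ) * ec t)‖ ^ 2

theorem norm_point_le (M : ℕ) (t : UnitAddCircle) :
    ‖((Real.exp (-dep M t) : ℝ) : ℂ) * ec t‖ ≤ 1 := by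
  rw [norm_mul, norm_ec, Complex.norm_real, Real.norm_eq_abs, abs_of_pos (Real.exp_pos _), mul_one,
    Real.exp_le_one_iff]
  linarith [dep_nonneg M t]

theorem continuous_psi (M : ℕ) {c : ℝ} (hc0 : 0 < c) (hc1 : c ≤ 1) : Continuous (psi M c) := by
  unfold psi
  refine (continuous_bl_comp (by linarith) (by linarith) ?_ (norm_point_le M)).norm.pow 2
  have := continuous_dep M
  fun_prop

theorem psi_le_one (M : ℕ) {c : ℝ} (hc0 : 0 < c) (hc1 : c ≤ 1) (t : UnitAddCircle) :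
    psi M c t ≤ 1 :=
  pow_le_one₀ (norm_nonneg _) (norm_bl_le (by linarith) (by linarith) (norm_point_le M t))

theorem psi_le {M : ℕ} (hM : 1 ≤ M) {c : ℝ} (hc0 : 0 < c) (hc1 : c ≤ 1 / M) {x : ℝ}
    (hx0 : 1 / (M : ℝ) ≤ x) (hx1 : x ≤ 1 / 2) : c / 81 * x⁻¹ ≤ 1 - psi M c x := by
  have hMpos : (0 : ℝ) < M := by exact_mod_cast hM
  have hxpos : 0 < x := lt_of_lt_of_le (by positivity) hx0
  have hcx : c ≤ x := hc1.trans hx0
  have hnorm : ‖(x : UnitAddCircle)‖ = x := by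
    rw [(AddCircle.norm_coe_eq_abs_iff (1 : ℝ) one_ne_zero).2 (by rw [abs_of_pos hxpos]; simpa using hx1),
      abs_of_pos hxpos]
  have hdep : dep M x = x := by rw [dep, hnorm, max_eq_left hx0]
  have hle := norm_point_le M x
  rw [psi, bl_normSq (by linarith) (by linarith) hle]
  have hne := bl_den_ne (a := 1 - c) (by linarith) (by linarith) hle
  rw [hdep] at hne ⊢
  have hz : ‖((Real.exp (-x) : ℝ) : ℂ) * ec x‖ = Real.exp (-x) := by
    rw [norm_mul, norm_ec, Complex.norm_real, Real.norm_eq_abs, abs_of_pos (Real.exp_pos _),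
      mul_one]
  rw [hz]
  have he1 : Real.exp (-x) ≤ 1 := by rw [Real.exp_le_one_iff]; linarith
  have he2 : 1 - x ≤ Real.exp (-x) := by linarith [Real.add_one_le_exp (-x)]
  have he3 : Real.exp (-x) ^ 2 ≤ 1 - x := by
    have h1 : 2 * x + 1 ≤ Real.exp (2 * x) := Real.add_one_le_exp _
    have h2 : Real.exp (-x) ^ 2 * Real.exp (2 * x) = 1 := by
      rw [← Real.exp_nat_mul, ← Real.exp_add]; simp
    have h3 : 0 < Real.exp (-x) ^ 2 := by positivity
    nlinarith
  have hec : ‖ec (x : UnitAddCircle) - 1‖ ≤ 7 * x := by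
    rw [ec_coe]
    refine Real.norm_exp_I_mul_ofReal_sub_one_le.trans ?_
    rw [Real.norm_eq_abs, abs_of_pos (by positivity)]
    nlinarith [Real.pi_lt_d2]
  have hden : ‖1 - ((1 - c : ℝ) : ℂ) * (((Real.exp (-x) : ℝ) : ℂ) * ec x)‖ ≤ 9 * x := by
    have : 1 - ((1 - c : ℝ) : ℂ) * (((Real.exp (-x) : ℝ) : ℂ) * ec x) =
        ((1 - (1 - c) * Real.exp (-x) : ℝ) : ℂ) -
          (((1 - c) * Real.exp (-x) : ℝ) : ℂ) * (ec x - 1) := by
      push_cast; ring
    rw [this]
    have h0 : 0 ≤ (1 - c) * Real.exp (-x) := mul_nonneg (by linarith) (Real.exp_pos _).le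
    have h1 : (1 - c) * Real.exp (-x) ≤ 1 := by nlinarith [Real.exp_pos (-x)]
    refine (norm_sub_le _ _).trans ?_
    rw [norm_mul, Complex.norm_real, Complex.norm_real, Real.norm_eq_abs, Real.norm_eq_abs,
      abs_of_nonneg h0, abs_of_nonneg (by linarith)]
    have h2 : (1 - c) * Real.exp (-x) * ‖ec (x : UnitAddCircle) - 1‖ ≤ 7 * x := by
      nlinarith [norm_nonneg (ec (x : UnitAddCircle) - 1)]
    nlinarith
  have hdpos : 0 < ‖1 - ((1 - c : ℝ) : ℂ) * (((Real.exp (-x) : ℝ) : ℂ) * ec x)‖ :=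
    norm_pos_iff.2 hne
  generalize ‖1 - ((1 - c : ℝ) : ℂ) * (((Real.exp (-x) : ℝ) : ℂ) * ec x)‖ = D at hden hdpos
  rw [sub_sub_cancel, le_div_iff₀ (by positivity)]
  have h4 : D ^ 2 ≤ 81 * x ^ 2 := by nlinarith
  have h5 : c / 81 * x⁻¹ * D ^ 2 ≤ c * x := by
    calc c / 81 * x⁻¹ * D ^ 2 ≤ c / 81 * x⁻¹ * (81 * x ^ 2) := by gcongr
      _ = c * x := by field_simp
  have h6 : c ≤ 1 - (1 - c) ^ 2 := by nlinarith
  have h7 : x ≤ 1 - Real.exp (-x) ^ 2 := by linarith
  calc _ ≤ c * x := h5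
    _ ≤ _ := by gcongr; linarith

theorem integral_psi_le {M : ℕ} (hM : 2 ≤ M) {c : ℝ} (hc0 : 0 < c) (hc1 : c ≤ 1 / M) :
    ∫ t, psi M c t ∂cH ≤ 1 - c / 81 * Real.log (M / 2) := by
  have hM2 : (2 : ℝ) ≤ M := by exact_mod_cast hM
  have hMpos : (0 : ℝ) < M := by linarith
  have hM' : 1 / (M : ℝ) ≤ 1 / 2 := one_div_le_one_div_of_le (by norm_num) hM2
  have hc2 : c ≤ 1 := by linarith
  have hcont : Continuous (fun x : ℝ => 1 - psi M c x) :=
    continuous_const.sub ((continuous_psi M hc0 hc2).comp (AddCircle.continuous_mk' 1))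
  have h1 : ∫ x in (0 : ℝ)..1, (1 - psi M c x) = 1 - ∫ t, psi M c t ∂cH := by
    have hc' : Continuous (fun x : ℝ => psi M c x) :=
      (continuous_psi M hc0 hc2).comp (AddCircle.continuous_mk' 1)
    rw [integral_cH_eq, intervalIntegral.integral_sub (f := fun _ => (1 : ℝ))
      (g := fun x : ℝ => psi M c x) (by simp) (hc'.intervalIntegrable _ _)]
    simp
  have h2 : ∫ x in (1 / M : ℝ)..(1 / 2), (1 - psi M c x) ≤ ∫ x in (0 : ℝ)..1, (1 - psi M c x) := by
    refine intervalIntegral.integral_mono_interval (by positivity) hM' (by norm_num) ?_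
      (hcont.intervalIntegrable _ _)
    exact Filter.Eventually.of_forall (fun x => sub_nonneg.2 (psi_le_one M hc0 hc2 x))
  have h3 : ∫ x in (1 / M : ℝ)..(1 / 2), c / 81 * x⁻¹ ≤
      ∫ x in (1 / M : ℝ)..(1 / 2), (1 - psi M c x) := by
    refine intervalIntegral.integral_mono_on hM' ?_ (hcont.intervalIntegrable _ _)
      (fun x hx => psi_le (by omega) hc0 hc1 hx.1 hx.2)
    refine IntervalIntegrable.const_mul ?_ _
    refine intervalIntegral.intervalIntegrable_inv (fun x hx => ?_) continuousOn_id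
    rw [Set.uIcc_of_le hM'] at hx
    exact (lt_of_lt_of_le (by positivity) hx.1).ne'
  have h4 : ∫ x in (1 / M : ℝ)..(1 / 2), c / 81 * x⁻¹ = c / 81 * Real.log (M / 2) := by
    rw [intervalIntegral.integral_const_mul, integral_inv_of_pos (by positivity) (by norm_num)]
    congr 2
    field_simp
  linarith

theorem integral_comp_nsmul {K : ℕ} (hK : K ≠ 0) {h : UnitAddCircle → ℝ} (hh : Continuous h) :
    ∫ t, h ((K : ℤ) • t) ∂cH = ∫ t, h t ∂cH := by
  have hmp : MeasurePreserving (fun t : UnitAddCircle => (K : ℤ) • t) cH cH :=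
    Measure.measurePreserving_zsmul cH (by exact_mod_cast hK)
  rw [← integral_map hmp.measurable.aemeasurable hh.aestronglyMeasurable, hmp.map_eq]

theorem ec_zsmul (K : ℕ) (t : UnitAddCircle) : ec ((K : ℤ) • t) = ec t ^ K := by
  simp only [ec, fourier_apply, one_smul, natCast_zsmul]
  rw [AddCircle.toCircle_nsmul]
  simp

instance : IsProbabilityMeasure torusHaar := by
  unfold torusHaar
  infer_instance

theorem integral_prod_torus {𝕜 : Type} [RCLike 𝕜] (s : Finset ℕ) {h : ℕ → UnitAddCircle → 𝕜}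
    (hh : ∀ j ∈ s, Continuous (h j)) :
    ∫ θ, ∏ j ∈ s, h j (θ j) ∂torusHaar = ∏ j ∈ s, ∫ t, h j t ∂cH := by
  have hc : Continuous (fun y : (s → UnitAddCircle) => ∏ j : s, h j (y j)) :=
    continuous_finsetProd _ (fun j _ => (hh j j.2).comp (continuous_apply j))
  have := integral_restrict_infinitePi (μ := fun _ : ℕ => cH) (s := s)
    (f := fun y => ∏ j : s, h j (y j)) hc.aestronglyMeasurable
  rw [integral_fintype_prod_eq_prod (fun (j : s) (t : UnitAddCircle) => h j t)] at this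
  rw [← Finset.prod_coe_sort s (fun j => ∫ t, h j t ∂cH), ← this, torusHaar]
  congr 1
  ext θ
  rw [← Finset.prod_coe_sort s (fun j => h j (θ j))]
  rfl

end Pool.Agent.MP_919c6d_an
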